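import Mathlib

/-!
Multiplicative relations between positive integers, expressed through valuations, and the
definition of a `k`-multiplicatively dependent tuple.
-/

set_option autoImplicit false

namespace Pool.Agent.Lib.MP_db38ce_nt

open Finset

/-- The subtuple of `a` indexed by `s` is multiplicatively dependent: some product of integer
powers of its entries, with exponents not all zero, equals one. -/
def MultDepOn {n : ℕ} (a : Fin n → ℤ) (s : Finset (Fin n)) : Prop :=
  ∃ e : Fin n → ℤ, (∃ i ∈ s, e i ≠ 0) ∧ ∏ i ∈ s, (a i : ℚ) ^ e i = 1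

/-- `k`-multiplicatively dependent tuples: some `k`-subtuple is multiplicatively dependent, and
every `(k-1)`-subtuple is multiplicatively independent. -/
def KMultDep {n : ℕ} (k : ℕ) (a : Fin n → ℤ) : Prop :=
  (∃ s : Finset (Fin n), s.card = k ∧ MultDepOn a s) ∧
    ∀ s : Finset (Fin n), s.card = k - 1 → ¬ MultDepOn a s

/-- The exponent of `p` in `n`, as an integer. -/
def v (p n : ℕ) : ℤ := (n.factorization p : ℤ)

lemma v_mul {p a b : ℕ} (ha : a ≠ 0) (hb : b ≠ 0) : v p (a * b) = v p a + v p b := by
  unfold v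
  rw [Nat.factorization_mul ha hb]
  simp

lemma v_pow {p a n : ℕ} : v p (a ^ n) = n * v p a := by
  unfold v
  rw [Nat.factorization_pow]
  simp

lemma v_one (p : ℕ) : v p 1 = 0 := by simp [v]

lemma v_eq_zero {p n : ℕ} (h : ¬ p ∣ n) : v p n = 0 := by
  unfold v
  rw [Nat.factorization_eq_zero_of_not_dvd h]
  rfl

lemma v_pos {p n : ℕ} (hp : p.Prime) (hn : n ≠ 0) (h : p ∣ n) : 0 < v p n := by
  unfold v
  exact_mod_cast hp.factorization_pos_of_dvd hn h

lemma v_nonneg (p n : ℕ) : 0 ≤ v p n := by
  unfold v
  positivity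

/-- A multiplicative relation with exponents `e`, expressed through valuations. -/
def Rel {ι : Type*} [Fintype ι] (x : ι → ℕ) (e : ι → ℤ) : Prop :=
  ∀ p : ℕ, p.Prime → ∑ i, e i * v p (x i) = 0

lemma prod_zpow_eq_one_iff {ι : Type*} [Fintype ι] (x : ι → ℕ) (hx : ∀ i, x i ≠ 0)
    (e : ι → ℤ) : ∏ i, (x i : ℚ) ^ e i = 1 ↔ Rel x e := by
  classical
  -- numerator and denominator
  set N : ℕ := ∏ i, x i ^ (e i).toNat with hN
  set D : ℕ := ∏ i, x i ^ (-e i).toNat with hD
  have hN0 : N ≠ 0 := Finset.prod_ne_zero_iff.mpr fun i _ => pow_ne_zero _ (hx i)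
  have hD0 : D ≠ 0 := Finset.prod_ne_zero_iff.mpr fun i _ => pow_ne_zero _ (hx i)
  have hq : ∏ i, (x i : ℚ) ^ e i = (N : ℚ) / D := by
    rw [hN, hD, Nat.cast_prod, Nat.cast_prod, ← Finset.prod_div_distrib]
    refine Finset.prod_congr rfl fun i _ => ?_
    have h0 : (x i : ℚ) ≠ 0 := by exact_mod_cast hx i
    push_cast
    rw [← zpow_natCast, ← zpow_natCast, ← zpow_sub₀ h0]
    congr 1
    omega
  have hfac : ∀ p, v p N - v p D = ∑ i, e i * v p (x i) := by
    intro p
    have h1 : v p N = ∑ i, ((e i).toNat : ℤ) * v p (x i) := by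
      unfold v
      rw [hN, Nat.factorization_prod (fun i _ => pow_ne_zero _ (hx i))]
      simp [Finsupp.finset_sum_apply]
    have h2 : v p D = ∑ i, ((-e i).toNat : ℤ) * v p (x i) := by
      unfold v
      rw [hD, Nat.factorization_prod (fun i _ => pow_ne_zero _ (hx i))]
      simp [Finsupp.finset_sum_apply]
    rw [h1, h2, ← Finset.sum_sub_distrib]
    refine Finset.sum_congr rfl fun i _ => ?_
    rw [← sub_mul]
    congr 1
    omega
  rw [hq, div_eq_one_iff_eq (by exact_mod_cast hD0)]
  constructor
  · intro h p _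
    have h' : N = D := by exact_mod_cast h
    rw [← hfac p, h']
    ring
  · intro h
    have h' : N = D := by
      refine Nat.eq_of_factorization_eq hN0 hD0 fun p => ?_
      by_cases hp : p.Prime
      · have := hfac p
        rw [h p hp] at this
        unfold v at this
        omega
      · rw [Nat.factorization_eq_zero_of_not_prime _ hp, Nat.factorization_eq_zero_of_not_prime _ hp]
    exact_mod_cast h'

/-- The tuple `x` is a multiplicative circuit: it has a relation with all exponents nonzero and
every relation is an integer multiple of it. -/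
structure Circuit {ι : Type*} [Fintype ι] (x : ι → ℕ) (r : ι → ℤ) : Prop where
  ne : ∀ i, r i ≠ 0
  rel : Rel x r
  span : ∀ e, Rel x e → ∃ t : ℤ, ∀ i, e i = t * r i

lemma Circuit.comp {ι κ : Type*} [Fintype ι] [Fintype κ] {x : ι → ℕ} {r : ι → ℤ}
    (h : Circuit x r) (f : κ ≃ ι) : Circuit (fun i => x (f i)) (fun i => r (f i)) := by
  refine ⟨fun i => h.ne _, ?_, ?_⟩
  · intro p hp
    have := h.rel p hp
    rw [← this]
    exact Equiv.sum_comp f (fun i => r i * v p (x i))
  · intro e he
    obtain ⟨t, ht⟩ := h.span (fun i => e (f.symm i)) (by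
      intro p hp
      have := he p hp
      rw [← this]
      rw [← Equiv.sum_comp f]
      simp)
    exact ⟨t, fun i => by simpa using ht (f i)⟩

lemma Circuit.injective {n : ℕ} (hn : 3 ≤ n) {x : Fin n → ℕ} {r : Fin n → ℤ}
    (h : Circuit x r) : Function.Injective x := by
  classical
  intro i j hij
  by_contra hne
  obtain ⟨t, ht⟩ := h.span (Pi.single i 1 - Pi.single j 1) (by
    intro p _
    simp only [Pi.sub_apply, sub_mul, Finset.sum_sub_distrib]
    rw [Finset.sum_eq_single i, Finset.sum_eq_single j]
    · simp [hij]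
    · intro b _ hb
      simp [Pi.single_apply, hb]
    · simp
    · intro b _ hb
      simp [Pi.single_apply, hb]
    · simp)
  obtain ⟨l, hli, hlj⟩ : ∃ l : Fin n, l ≠ i ∧ l ≠ j := by
    have hcard : ({i, j} : Finset (Fin n)).card < Fintype.card (Fin n) := by
      have := Finset.card_le_two (a := i) (b := j)
      rw [Fintype.card_fin]
      omega
    obtain ⟨l, hl⟩ := Finset.exists_mem_notMem_of_card_lt_card
      (s := ({i, j} : Finset (Fin n))) (t := Finset.univ) (by simpa using hcard)
    simp only [Finset.mem_insert, Finset.mem_singleton, not_or] at hl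
    exact ⟨l, hl.2.1, hl.2.2⟩
  have h1 := ht l
  have h2 := ht i
  simp only [Pi.sub_apply, Pi.single_apply, hli, hlj, if_false] at h1
  have ht0 : t = 0 := by
    rcases mul_eq_zero.mp h1.symm with h3 | h3
    · exact h3
    · exact absurd h3 (h.ne l)
  simp [Pi.single_apply, hne, ht0] at h2

lemma Circuit.kMultDep {n : ℕ} (hn : 1 ≤ n) {x : Fin n → ℕ} {r : Fin n → ℤ}
    (hx : ∀ i, x i ≠ 0) (h : Circuit x r) : KMultDep n (fun i => (x i : ℤ)) := by
  classical
  constructor
  · refine ⟨Finset.univ, by simp, r, ⟨⟨0, hn⟩, Finset.mem_univ _, h.ne _⟩, ?_⟩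
    have := (prod_zpow_eq_one_iff x hx r).mpr h.rel
    simpa using this
  · rintro s hs ⟨e, ⟨i, his, hei⟩, he⟩
    -- an index outside `s`
    obtain ⟨l, hl⟩ : ∃ l, l ∉ s := by
      by_contra hcon
      push Not at hcon
      have : s = Finset.univ := Finset.eq_univ_iff_forall.mpr hcon
      rw [this, Finset.card_univ, Fintype.card_fin] at hs
      omega
    obtain ⟨t, ht⟩ := h.span (fun i => if i ∈ s then e i else 0) (by
      refine (prod_zpow_eq_one_iff x hx _).mp ?_
      rw [← he, ← Finset.prod_subset (Finset.subset_univ s)]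
      · refine Finset.prod_congr rfl fun i hi => ?_
        simp [hi]
      · intro i _ hi
        simp [hi])
    have h1 := ht l
    have h2 := ht i
    simp only [hl, his, if_true, if_false] at h1 h2
    have ht0 : t = 0 := by
      rcases mul_eq_zero.mp h1.symm with h3 | h3
      · exact h3
      · exact absurd h3 (h.ne l)
    rw [ht0, zero_mul] at h2
    exact hei h2

end Pool.Agent.Lib.MP_db38ce_nt
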