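import Pool.Agent.Lib.MP_db38ce_nt.Path

/-!
Gluing a cap to the path gives a multiplicative circuit whose shift is again a circuit.
-/

set_option autoImplicit false

namespace Pool.Agent.Lib.MP_db38ce_nt

open Finset

/-- The index type of a tuple made of a cap and a path of length `k`. -/
abbrev Idx (κ : Type) (k : ℕ) : Type := κ ⊕ ((Fin k ⊕ (Fin k ⊕ Fin k)) ⊕ Unit)

/-- The tuple made of the cap `cp` and of the path. -/
def tup {κ : Type} (cp : κ → ℕ) (w d k : ℕ) : Idx κ k → ℕ :=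
  Sum.elim cp (Sum.elim (Sum.elim (fun j => X d (w + j)) (Sum.elim (fun j => cc d (w + j))
    (fun j => zz d (w + j)))) (fun _ => d * (w + k)))

/-- The exponents of the relation. -/
def rr {κ : Type} (rk : κ → ℤ) (k : ℕ) : Idx κ k → ℤ :=
  Sum.elim rk (Sum.elim (Sum.elim (fun _ => -1) (Sum.elim (fun _ => -1)
    (fun _ => 1))) (fun _ => -1))

lemma rr_ne {κ : Type} {rk : κ → ℤ} (h : ∀ i, rk i ≠ 0) (k : ℕ) : ∀ i, rr rk k i ≠ 0 := by
  rintro (i | ((j | (j | j)) | _)) <;> simp [rr, h]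

lemma sum_tup {κ : Type} [Fintype κ] {cp : κ → ℕ} {w d k : ℕ} (e : Idx κ k → ℤ)
    (f : ℕ → ℤ) : ∑ i, e i * f (tup cp w d k i) =
      ∑ i, e (Sum.inl i) * f (cp i)
      + ∑ j : Fin k, (e (Sum.inr (Sum.inl (Sum.inl j))) * f (X d (w + j))
          + e (Sum.inr (Sum.inl (Sum.inr (Sum.inl j)))) * f (cc d (w + j))
          + e (Sum.inr (Sum.inl (Sum.inr (Sum.inr j)))) * f (zz d (w + j)))
      + e (Sum.inr (Sum.inr ())) * f (d * (w + k)) := by
  simp only [Fintype.sum_sum_type, tup, Sum.elim_inl, Sum.elim_inr, Finset.univ_unique,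
    Finset.sum_singleton, Finset.sum_add_distrib]
  ring_nf

lemma circuitP {κ : Type} [Fintype κ] {cp : κ → ℕ} {rk : κ → ℤ} {w d k K : ℕ}
    (h : Params w d k K) (hrk : ∀ i, rk i ≠ 0)
    (hrel : ∀ p, p.Prime → ∑ i, rk i * v p (cp i) = v p (d * w))
    (hcap : ∀ ε : κ → ℤ, (∀ p, p.Prime → K < p → (∀ j < k, ¬ p ∣ X d (w + j)) →
        (∀ j < k, ¬ p ∣ G d (w + j)) → ∑ i, ε i * v p (cp i) = 0) →
      ∃ (τ : ℤ) (Cst : ℕ → ℤ), (∀ p, p.Prime → ∑ i, ε i * v p (cp i) = τ * v p (d * w) + Cst p) ∧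
        (∀ p, p.Prime → 3 < p → Cst p = 0) ∧
        ((∀ p, p.Prime → Cst p = 0) → ∀ i, ε i = τ * rk i)) :
    Circuit (tup cp w d k) (rr rk k) := by
  have hw := h.w_pos
  have hd := h.d_pos
  have hK := h.K_big
  refine ⟨rr_ne hrk k, ?_, ?_⟩
  · intro p hp
    rw [sum_tup (rr rk k) (fun n => v p n)]
    simp only [rr, Sum.elim_inl, Sum.elim_inr]
    rw [hrel p hp]
    have h1 : ∑ j : Fin k, (-1 * v p (X d (w + j)) + -1 * v p (cc d (w + j))
        + 1 * v p (zz d (w + j))) = ∑ j : Fin k, (v p (w + (j + 1)) - v p (w + j)) := by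
      refine Finset.sum_congr rfl fun j _ => ?_
      rw [v_cc (by omega), v_zz, add_assoc w j 1]
      ring
    rw [h1, tele_sum (fun j => v p (w + j)), v_mul (by omega) (by omega),
      v_mul (by omega) (by omega)]
    simp
  · intro e he
    have hsum := fun p => sum_tup (cp := cp) (w := w) (d := d) e (fun n => v p n)
    obtain ⟨τ, Cst, h1, h2, h3⟩ := hcap (fun i => e (Sum.inl i)) (by
      intro p hp hKp hX hG
      have h0 := he p hp
      rw [hsum p] at h0
      rw [Finset.sum_eq_zero (s := Finset.univ) (f := fun j : Fin k =>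
        (e (Sum.inr (Sum.inl (Sum.inl j))) * v p (X d (w + j))
          + e (Sum.inr (Sum.inl (Sum.inr (Sum.inl j)))) * v p (cc d (w + j))
          + e (Sum.inr (Sum.inl (Sum.inr (Sum.inr j)))) * v p (zz d (w + j))))] at h0
      · rw [v_mul (by omega) (by omega), v_eq_zero (h.d_big p hp hKp),
          h.v_w hKp (by omega : k ≤ k + 2)] at h0
        linarith
      · intro j _
        rw [v_cc (by omega), v_zz, v_eq_zero (hX j j.2), v_eq_zero (hG j j.2),
          h.v_w hKp (by omega : (j : ℕ) ≤ k + 2), add_assoc w,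
          h.v_w hKp (by omega : (j : ℕ) + 1 ≤ k + 2)]
        ring)
    obtain ⟨h4, h5, h6⟩ := pathP h (τ := τ) (β := e (Sum.inr (Sum.inr ())))
      (ξ := fun j => e (Sum.inr (Sum.inl (Sum.inl j))))
      (γ := fun j => e (Sum.inr (Sum.inl (Sum.inr (Sum.inl j)))))
      (ζ := fun j => e (Sum.inr (Sum.inl (Sum.inr (Sum.inr j))))) h2 (by
        intro p hp
        have h0 := he p hp
        rw [hsum p, h1 p hp] at h0
        exact h0)
    refine ⟨τ, ?_⟩
    rintro (i | ((j | (j | j)) | u))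
    · exact h3 h6 i
    · simpa [rr] using (h4 j).1
    · simpa [rr] using (h4 j).2.1
    · simpa [rr] using (h4 j).2.2
    · simpa [rr] using h5

lemma circuitQ {κ : Type} [Fintype κ] {cp : κ → ℕ} {rk : κ → ℤ} {w d k K : ℕ}
    (h : Params w d k K) (hrk : ∀ i, rk i ≠ 0)
    (hrel : ∀ p, p.Prime → ∑ i, rk i * v p (cp i + 1) = v p (Y1 d w))
    (hcap : ∀ ε : κ → ℤ, (∀ p, p.Prime → K < p → (∀ j < k, ¬ p ∣ C d (w + j)) →
        (∀ j ≤ k, ¬ p ∣ Y1 d (w + j)) → ∑ i, ε i * v p (cp i + 1) = 0) →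
      ∃ (τ : ℤ) (Cst : ℕ → ℤ),
        (∀ p, p.Prime → ∑ i, ε i * v p (cp i + 1) = τ * v p (Y1 d w) + Cst p) ∧
        (∀ p, p.Prime → 3 < p → Cst p = 0) ∧
        ((∀ p, p.Prime → Cst p = 0) → ∀ i, ε i = τ * rk i)) :
    Circuit (fun i => tup cp w d k i + 1) (rr rk k) := by
  have hw := h.w_pos
  have hd := h.d_pos
  have hK := h.K_big
  have hYk : d * (w + k) + 1 = Y1 d (w + k) := by unfold Y1; ring
  refine ⟨rr_ne hrk k, ?_, ?_⟩
  · intro p hp
    rw [sum_tup (rr rk k) (fun n => v p (n + 1))]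
    simp only [rr, Sum.elim_inl, Sum.elim_inr]
    rw [hrel p hp]
    have h1 : ∑ j : Fin k, (-1 * v p (X d (w + j) + 1) + -1 * v p (cc d (w + j) + 1)
        + 1 * v p (zz d (w + j) + 1))
        = ∑ j : Fin k, (v p (Y1 d (w + (j + 1))) - v p (Y1 d (w + j))) := by
      refine Finset.sum_congr rfl fun j _ => ?_
      rw [v_X1, v_cc1, v_zz1, add_assoc w j 1]
      ring
    rw [h1, tele_sum (fun j => v p (Y1 d (w + j))), hYk]
    simp
  · intro e he
    have hsum := fun p => sum_tup (cp := cp) (w := w) (d := d) e (fun n => v p (n + 1))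
    obtain ⟨τ, Cst, h1, h2, h3⟩ := hcap (fun i => e (Sum.inl i)) (by
      intro p hp hKp hC hY
      have h0 := he p hp
      rw [hsum p] at h0
      rw [Finset.sum_eq_zero (s := Finset.univ) (f := fun j : Fin k =>
        (e (Sum.inr (Sum.inl (Sum.inl j))) * v p (X d (w + j) + 1)
          + e (Sum.inr (Sum.inl (Sum.inr (Sum.inl j)))) * v p (cc d (w + j) + 1)
          + e (Sum.inr (Sum.inl (Sum.inr (Sum.inr j)))) * v p (zz d (w + j) + 1)))] at h0
      · rw [hYk, v_eq_zero (hY k le_rfl)] at h0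
        linarith
      · intro j _
        have hj := j.2
        rw [v_X1, v_cc1, v_zz1, v_eq_zero (hC j hj), v_eq_zero (hY j (by omega)),
          add_assoc w, add_assoc w, v_eq_zero (hY (j + 1) (by omega)),
          h.v_w hKp (by omega : (j : ℕ) + 2 ≤ k + 2)]
        ring)
    obtain ⟨h4, h5, h6⟩ := pathQ h (τ := τ) (β := e (Sum.inr (Sum.inr ())))
      (ξ := fun j => e (Sum.inr (Sum.inl (Sum.inl j))))
      (γ := fun j => e (Sum.inr (Sum.inl (Sum.inr (Sum.inl j)))))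
      (ζ := fun j => e (Sum.inr (Sum.inl (Sum.inr (Sum.inr j))))) h2 (by
        intro p hp
        have h0 := he p hp
        rw [hsum p, h1 p hp, hYk] at h0
        exact h0)
    refine ⟨τ, ?_⟩
    rintro (i | ((j | (j | j)) | u))
    · exact h3 h6 i
    · simpa [rr] using (h4 j).1
    · simpa [rr] using (h4 j).2.1
    · simpa [rr] using (h4 j).2.2
    · simpa [rr] using h5

end Pool.Agent.Lib.MP_db38ce_nt
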