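import Pool.Agent.Lib.MP_db38ce_nt.Exists
import Pool.Agent.Lib.MP_db38ce_nt.Glue

/-!
The three caps, of sizes 1, 3 and 5.
-/

set_option autoImplicit false

namespace Pool.Agent.Lib.MP_db38ce_nt

open Finset Nat

lemma v_two_two : v 2 2 = 1 := by
  unfold v
  rw [Nat.Prime.factorization_self Nat.prime_two]
  rfl

lemma v_three_two : v 2 3 = 0 := v_eq_zero (by norm_num)

lemma v_big_two {p : ℕ} (hp : 3 < p) : v p 2 = 0 :=
  v_eq_zero fun h => by have := Nat.le_of_dvd (by norm_num) h; omega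

lemma v_big_three {p : ℕ} (hp : 3 < p) : v p 3 = 0 :=
  v_eq_zero fun h => by have := Nat.le_of_dvd (by norm_num) h; omega

/-! ### the trivial cap -/

/-- The one-element cap. -/
def cap1 (w d : ℕ) : Unit → ℕ := fun _ => d * w

lemma cap1_P {w d k K : ℕ} (h : Params w d k K) :
    Circuit (tup (cap1 w d) w d k) (rr (fun _ => 1) k) := by
  refine circuitP h (fun _ => one_ne_zero) (fun p _ => by simp [cap1]) fun ε _ =>
    ⟨ε (), fun _ => 0, fun p _ => by simp [cap1], fun _ _ _ => rfl, fun _ i => by simp⟩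

lemma cap1_Q {w d k K : ℕ} (h : Params w d k K) :
    Circuit (fun i => tup (cap1 w d) w d k i + 1) (rr (fun _ => 1) k) := by
  have e : d * w + 1 = Y1 d w := by unfold Y1; ring
  refine circuitQ h (fun _ => one_ne_zero) (fun p _ => by simp [cap1, e]) fun ε _ =>
    ⟨ε (), fun _ => 0, fun p _ => by simp [cap1, e], fun _ _ _ => rfl, fun _ i => by simp⟩

/-! ### the three-element cap -/

/-- The three-element cap. -/
def cap3 (w d : ℕ) : Fin 3 → ℕ :=
  ![2 * (d * w), 2 * (d * w) * (4 * w * d + 3), d * w * (4 * w * d + 3) ^ 2]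

/-- The exponents of the three-element cap. -/
def r3 : Fin 3 → ℤ := ![2, -2, 1]

lemma r3_ne : ∀ i, r3 i ≠ 0 := by
  intro i
  fin_cases i <;> simp [r3]

lemma cap3_v {w d : ℕ} (hw : 0 < w) (hd : 0 < d) (p : ℕ) (ε : Fin 3 → ℤ) :
    ∑ i, ε i * v p (cap3 w d i) = (ε 0 + ε 1 + ε 2) * v p (d * w) + (ε 0 + ε 1) * v p 2
      + (ε 1 + 2 * ε 2) * v p (4 * w * d + 3) := by
  have h0 : d * w ≠ 0 := by positivity
  have h1 : 4 * w * d + 3 ≠ 0 := by omega
  rw [Fin.sum_univ_three]
  simp only [cap3, Matrix.cons_val_zero, Matrix.cons_val_one, Matrix.cons_val_two,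
    Matrix.head_cons, Matrix.tail_cons, Matrix.cons_val]
  rw [v_mul (a := 2 * (d * w)) (by positivity) h1, v_mul (a := 2) (by norm_num) h0,
    v_mul (a := d * w) (b := (4 * w * d + 3) ^ 2) h0 (pow_ne_zero _ h1), v_pow]
  push_cast
  ring

lemma cap3_v1 {w d : ℕ} (p : ℕ) (ε : Fin 3 → ℤ) :
    ∑ i, ε i * v p (cap3 w d i + 1) = ε 2 * v p (Y1 d w)
      + (ε 0 + ε 1) * v p (2 * w * d + 1) + (ε 1 + 2 * ε 2) * v p (4 * w * d + 1) := by
  have e0 : 2 * (d * w) + 1 = 2 * w * d + 1 := by ring
  have e1 : 2 * (d * w) * (4 * w * d + 3) + 1 = (2 * w * d + 1) * (4 * w * d + 1) := by ring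
  have e2 : d * w * (4 * w * d + 3) ^ 2 + 1 = Y1 d w * (4 * w * d + 1) ^ 2 := by
    unfold Y1; ring
  have h1 : 4 * w * d + 1 ≠ 0 := by omega
  have h2 : 2 * w * d + 1 ≠ 0 := by omega
  rw [Fin.sum_univ_three]
  simp only [cap3, Matrix.cons_val_zero, Matrix.cons_val_one, Matrix.cons_val_two,
    Matrix.head_cons, Matrix.tail_cons, Matrix.cons_val]
  rw [e0, e1, e2, v_mul h2 h1, v_mul (Y1_pos d w).ne' (pow_ne_zero _ h1), v_pow]
  push_cast
  ring

lemma cap3_P {w d k K : ℕ} (h : Params w d k K) (hc : CapP w d k K) :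
    Circuit (tup (cap3 w d) w d k) (rr r3 k) := by
  have hw := h.w_pos
  have hd := h.d_pos
  have hK := h.K_big
  refine circuitP h r3_ne (fun p hp => ?_) fun ε hε => ?_
  · rw [cap3_v (by omega) (by omega)]
    simp [r3]
  · obtain ⟨p, hp, hKp, hpd, -, hX, hG⟩ := hc 0
    have h1 := hε p hp hKp hX hG
    rw [cap3_v (by omega) (by omega), v_big_two (by omega), v_mul (by omega) (by omega),
      v_eq_zero (h.d_big p hp hKp)] at h1
    have hw0 : v p w = 0 := h.v_w hKp (i := 0) (by omega)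
    rw [hw0] at h1
    have h2 : 0 < v p (4 * w * d + 3) := v_pos hp (by omega) hpd
    have h3 : (ε 1 + 2 * ε 2) * v p (4 * w * d + 3) = 0 := by linarith
    have h4 : ε 1 + 2 * ε 2 = 0 := by
      rcases mul_eq_zero.mp h3 with h4 | h4
      · exact h4
      · omega
    refine ⟨ε 0 + ε 1 + ε 2, fun p => (ε 0 + ε 1) * v p 2, fun p _ => ?_, fun p _ hp3 => ?_,
      fun hC => ?_⟩
    · rw [cap3_v (by omega) (by omega), h4]
      ring
    · show (ε 0 + ε 1) * v p 2 = 0
      rw [v_big_two hp3, mul_zero]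
    · have h5 := hC 2 Nat.prime_two
      simp only [v_two_two, mul_one] at h5
      intro i
      fin_cases i <;> simp [r3] <;> linarith

lemma cap3_Q {w d k K : ℕ} (h : Params w d k K) (hc : CapQ w d k K) :
    Circuit (fun i => tup (cap3 w d) w d k i + 1) (rr r3 k) := by
  have hw := h.w_pos
  have hd := h.d_pos
  have hK := h.K_big
  refine circuitQ h r3_ne (fun p hp => ?_) fun ε hε => ?_
  · rw [cap3_v1]
    simp [r3]
  · have h01 : ε 0 + ε 1 = 0 := by
      obtain ⟨p, hp, hKp, hpd, ho, hC, hY⟩ := hc 0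
      have h1 := hε p hp hKp hC hY
      have hY0 : v p (Y1 d w) = 0 := v_eq_zero (hY 0 (by omega))
      have ho1 : v p (4 * w * d + 1) = 0 := v_eq_zero (ho 1 (by decide))
      rw [cap3_v1, hY0, ho1] at h1
      have h2 : 0 < v p (2 * w * d + 1) := v_pos hp (by omega) hpd
      have h3 : (ε 0 + ε 1) * v p (2 * w * d + 1) = 0 := by linarith
      rcases mul_eq_zero.mp h3 with h4 | h4
      · exact h4
      · omega
    have h12 : ε 1 + 2 * ε 2 = 0 := by
      obtain ⟨p, hp, hKp, hpd, ho, hC, hY⟩ := hc 1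
      have h1 := hε p hp hKp hC hY
      have hY0 : v p (Y1 d w) = 0 := v_eq_zero (hY 0 (by omega))
      have ho1 : v p (2 * w * d + 1) = 0 := v_eq_zero (ho 0 (by decide))
      rw [cap3_v1, hY0, ho1] at h1
      have h2 : 0 < v p (4 * w * d + 1) := v_pos hp (by omega) hpd
      have h3 : (ε 1 + 2 * ε 2) * v p (4 * w * d + 1) = 0 := by linarith
      rcases mul_eq_zero.mp h3 with h4 | h4
      · exact h4
      · omega
    refine ⟨ε 2, fun _ => 0, fun p _ => ?_, fun p _ hp3 => rfl, fun _ => ?_⟩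
    · rw [cap3_v1, h01, h12]
      ring
    · intro i
      fin_cases i <;> simp [r3] <;> linarith

/-! ### the five-element cap -/

/-- The five-element cap, in terms of `α` with `d w = 2 α`. -/
def cap5 (α : ℕ) : Fin 5 → ℕ :=
  ![3 * α, 8 * α + 3, 36 * α + 13, 2 * (36 * α + 11),
    3 * ((8 * α + 3) * ((36 * α + 13) * (36 * α + 11)))]

/-- The exponents of the five-element cap. -/
def r5 : Fin 5 → ℤ := ![1, 1, 1, 1, -1]

lemma r5_ne : ∀ i, r5 i ≠ 0 := by
  intro i
  fin_cases i <;> simp [r5]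

lemma cap5_v {α : ℕ} (hα : 0 < α) (p : ℕ) (ε : Fin 5 → ℤ) :
    ∑ i, ε i * v p (cap5 α i) = ε 0 * v p (2 * α) + ((ε 0 + ε 4) * v p 3 + (ε 3 - ε 0) * v p 2)
      + (ε 1 + ε 4) * v p (8 * α + 3) + (ε 2 + ε 4) * v p (36 * α + 13)
      + (ε 3 + ε 4) * v p (36 * α + 11) := by
  rw [Fin.sum_univ_five]
  simp only [cap5, Matrix.cons_val_zero, Matrix.cons_val_one, Matrix.cons_val_two,
    Matrix.head_cons, Matrix.tail_cons, Matrix.cons_val]
  rw [v_mul (a := 3) (b := α) (by norm_num) (by omega),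
    v_mul (a := 2) (b := α) (by norm_num) (by omega),
    v_mul (a := 2) (b := 36 * α + 11) (by norm_num) (by omega),
    v_mul (a := 3) (b := (8 * α + 3) * ((36 * α + 13) * (36 * α + 11))) (by norm_num)
      (by positivity),
    v_mul (a := 8 * α + 3) (by omega) (by positivity),
    v_mul (a := 36 * α + 13) (by omega) (by omega)]
  ring

lemma cap5_v1 (α p : ℕ) (ε : Fin 5 → ℤ) :
    ∑ i, ε i * v p (cap5 α i + 1) = ε 1 * v p (2 * α + 1)
      + (2 * ε 1 + ε 2 + 3 * ε 4) * v p 2
      + (ε 0 + ε 4) * v p (3 * α + 1) + (ε 2 + ε 4) * v p (18 * α + 7)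
      + (ε 3 + ε 4) * v p (72 * α + 23) := by
  have e1 : 8 * α + 3 + 1 = 2 ^ 2 * (2 * α + 1) := by ring
  have e2 : 36 * α + 13 + 1 = 2 * (18 * α + 7) := by ring
  have e3 : 2 * (36 * α + 11) + 1 = 72 * α + 23 := by ring
  have e4 : 3 * ((8 * α + 3) * ((36 * α + 13) * (36 * α + 11))) + 1
      = 2 ^ 3 * ((3 * α + 1) * ((18 * α + 7) * (72 * α + 23))) := by ring
  rw [Fin.sum_univ_five]
  simp only [cap5, Matrix.cons_val_zero, Matrix.cons_val_one, Matrix.cons_val_two,
    Matrix.head_cons, Matrix.tail_cons, Matrix.cons_val]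
  rw [e1, e2, e3, e4, v_mul (a := 2 ^ 2) (by norm_num) (by omega),
    v_mul (a := 2) (b := 18 * α + 7) (by norm_num) (by omega),
    v_mul (a := 2 ^ 3) (by norm_num) (by positivity),
    v_mul (a := 3 * α + 1) (by omega) (by positivity),
    v_mul (a := 18 * α + 7) (by omega) (by omega), v_pow, v_pow]
  push_cast
  ring

lemma cap5_P {w d k K α : ℕ} (h : Params w d k K) (hc : CapP w d k K) (hα : d * w = 2 * α) :
    Circuit (tup (cap5 α) w d k) (rr r5 k) := by
  have hw := h.w_pos
  have hd := h.d_pos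
  have hK := h.K_big
  have hα0 : 0 < α := by
    have : 0 < d * w := by positivity
    omega
  have f1 : 4 * w * d + 3 = 8 * α + 3 := by
    have : 4 * w * d = 4 * (d * w) := by ring
    omega
  have f2 : 18 * w * d + 13 = 36 * α + 13 := by
    have : 18 * w * d = 18 * (d * w) := by ring
    omega
  have f3 : 18 * w * d + 11 = 36 * α + 11 := by
    have : 18 * w * d = 18 * (d * w) := by ring
    omega
  refine circuitP h r5_ne (fun p hp => ?_) fun ε hε => ?_
  · rw [cap5_v hα0, hα]
    simp [r5]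
  · have hsmall : ∀ p, p.Prime → K < p → v p (2 * α) = 0 := by
      intro p hp hKp
      rw [← hα, v_mul (by omega) (by omega), v_eq_zero (h.d_big p hp hKp)]
      have hw0 : v p w = 0 := h.v_w hKp (i := 0) (by omega)
      rw [hw0, add_zero]
    have h14 : ε 1 + ε 4 = 0 := by
      obtain ⟨p, hp, hKp, hpd, ho, hX, hG⟩ := hc 0
      have h1 := hε p hp hKp hX hG
      have o1 : v p (36 * α + 13) = 0 := by rw [← f2]; exact v_eq_zero (ho 1 (by decide))
      have o2 : v p (36 * α + 11) = 0 := by rw [← f3]; exact v_eq_zero (ho 2 (by decide))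
      rw [cap5_v hα0, v_big_two (by omega), v_big_three (by omega), hsmall p hp hKp, o1, o2] at h1
      have h2 : 0 < v p (8 * α + 3) := v_pos hp (by omega) (by rw [← f1]; exact hpd)
      have h3 : (ε 1 + ε 4) * v p (8 * α + 3) = 0 := by linarith
      rcases mul_eq_zero.mp h3 with h4 | h4
      · exact h4
      · omega
    have h24 : ε 2 + ε 4 = 0 := by
      obtain ⟨p, hp, hKp, hpd, ho, hX, hG⟩ := hc 1
      have h1 := hε p hp hKp hX hG
      have o1 : v p (8 * α + 3) = 0 := by rw [← f1]; exact v_eq_zero (ho 0 (by decide))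
      have o2 : v p (36 * α + 11) = 0 := by rw [← f3]; exact v_eq_zero (ho 2 (by decide))
      rw [cap5_v hα0, v_big_two (by omega), v_big_three (by omega), hsmall p hp hKp, o1, o2] at h1
      have h2 : 0 < v p (36 * α + 13) := v_pos hp (by omega) (by rw [← f2]; exact hpd)
      have h3 : (ε 2 + ε 4) * v p (36 * α + 13) = 0 := by linarith
      rcases mul_eq_zero.mp h3 with h4 | h4
      · exact h4
      · omega
    have h34 : ε 3 + ε 4 = 0 := by
      obtain ⟨p, hp, hKp, hpd, ho, hX, hG⟩ := hc 2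
      have h1 := hε p hp hKp hX hG
      have o1 : v p (8 * α + 3) = 0 := by rw [← f1]; exact v_eq_zero (ho 0 (by decide))
      have o2 : v p (36 * α + 13) = 0 := by rw [← f2]; exact v_eq_zero (ho 1 (by decide))
      rw [cap5_v hα0, v_big_two (by omega), v_big_three (by omega), hsmall p hp hKp, o1, o2] at h1
      have h2 : 0 < v p (36 * α + 11) := v_pos hp (by omega) (by rw [← f3]; exact hpd)
      have h3 : (ε 3 + ε 4) * v p (36 * α + 11) = 0 := by linarith
      rcases mul_eq_zero.mp h3 with h4 | h4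
      · exact h4
      · omega
    refine ⟨ε 0, fun p => (ε 0 + ε 4) * v p 3 + (ε 3 - ε 0) * v p 2, fun p _ => ?_,
      fun p _ hp3 => ?_, fun hC => ?_⟩
    · rw [cap5_v hα0, h14, h24, h34, hα]
      ring
    · show (ε 0 + ε 4) * v p 3 + (ε 3 - ε 0) * v p 2 = 0
      rw [v_big_two hp3, v_big_three hp3, mul_zero, mul_zero, add_zero]
    · have h5 := hC 2 Nat.prime_two
      simp only [v_two_two, v_three_two, mul_one, mul_zero] at h5
      intro i
      fin_cases i <;> simp [r5] <;> linarith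

lemma cap5_Q {w d k K α : ℕ} (h : Params w d k K) (hc : CapQ w d k K) (hα : d * w = 2 * α) :
    Circuit (fun i => tup (cap5 α) w d k i + 1) (rr r5 k) := by
  have hw := h.w_pos
  have hd := h.d_pos
  have hK := h.K_big
  have hα0 : 0 < α := by
    have : 0 < d * w := by positivity
    omega
  have f0 : Y1 d w = 2 * α + 1 := by
    unfold Y1
    have : w * d = d * w := by ring
    omega
  have f1 : 3 * w * d + 2 = 2 * (3 * α + 1) := by
    have : 3 * w * d = 3 * (d * w) := by ring
    omega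
  have f2 : 9 * w * d + 7 = 18 * α + 7 := by
    have : 9 * w * d = 9 * (d * w) := by ring
    omega
  have f3 : 36 * w * d + 23 = 72 * α + 23 := by
    have : 36 * w * d = 36 * (d * w) := by ring
    omega
  refine circuitQ h r5_ne (fun p hp => ?_) fun ε hε => ?_
  · rw [cap5_v1, f0]
    simp [r5]
  · have h04 : ε 0 + ε 4 = 0 := by
      obtain ⟨p, hp, hKp, hpd, ho, hX, hG⟩ := hc 2
      have h1 := hε p hp hKp hX hG
      have o0 : v p (2 * α + 1) = 0 := by
        rw [← f0]; exact v_eq_zero (hG 0 (by omega))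
      have o1 : v p (18 * α + 7) = 0 := by rw [← f2]; exact v_eq_zero (ho 3 (by decide))
      have o2 : v p (72 * α + 23) = 0 := by rw [← f3]; exact v_eq_zero (ho 4 (by decide))
      rw [cap5_v1, v_big_two (by omega), o0, o1, o2] at h1
      have hpd' : p ∣ 3 * α + 1 := by
        have hpd2 : p ∣ 2 * (3 * α + 1) := by rw [← f1]; exact hpd
        rcases (hp.dvd_mul).mp hpd2 with h | h
        · have := Nat.le_of_dvd (by norm_num) h
          omega
        · exact h
      have h2 : 0 < v p (3 * α + 1) := v_pos hp (by omega) hpd'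
      have h3 : (ε 0 + ε 4) * v p (3 * α + 1) = 0 := by linarith
      rcases mul_eq_zero.mp h3 with h4 | h4
      · exact h4
      · omega
    have h24 : ε 2 + ε 4 = 0 := by
      obtain ⟨p, hp, hKp, hpd, ho, hX, hG⟩ := hc 3
      have h1 := hε p hp hKp hX hG
      have o0 : v p (2 * α + 1) = 0 := by
        rw [← f0]; exact v_eq_zero (hG 0 (by omega))
      have o1 : v p (3 * α + 1) = 0 := by
        refine v_eq_zero fun h => ho 2 (by decide) ?_
        show p ∣ 3 * w * d + 2
        rw [f1]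
        exact dvd_mul_of_dvd_right h 2
      have o2 : v p (72 * α + 23) = 0 := by rw [← f3]; exact v_eq_zero (ho 4 (by decide))
      rw [cap5_v1, v_big_two (by omega), o0, o1, o2] at h1
      have h2 : 0 < v p (18 * α + 7) := v_pos hp (by omega) (by rw [← f2]; exact hpd)
      have h3 : (ε 2 + ε 4) * v p (18 * α + 7) = 0 := by linarith
      rcases mul_eq_zero.mp h3 with h4 | h4
      · exact h4
      · omega
    have h34 : ε 3 + ε 4 = 0 := by
      obtain ⟨p, hp, hKp, hpd, ho, hX, hG⟩ := hc 4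
      have h1 := hε p hp hKp hX hG
      have o0 : v p (2 * α + 1) = 0 := by
        rw [← f0]; exact v_eq_zero (hG 0 (by omega))
      have o1 : v p (3 * α + 1) = 0 := by
        refine v_eq_zero fun h => ho 2 (by decide) ?_
        show p ∣ 3 * w * d + 2
        rw [f1]
        exact dvd_mul_of_dvd_right h 2
      have o2 : v p (18 * α + 7) = 0 := by rw [← f2]; exact v_eq_zero (ho 3 (by decide))
      rw [cap5_v1, v_big_two (by omega), o0, o1, o2] at h1
      have h2 : 0 < v p (72 * α + 23) := v_pos hp (by omega) (by rw [← f3]; exact hpd)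
      have h3 : (ε 3 + ε 4) * v p (72 * α + 23) = 0 := by linarith
      rcases mul_eq_zero.mp h3 with h4 | h4
      · exact h4
      · omega
    refine ⟨ε 1, fun p => (2 * ε 1 + ε 2 + 3 * ε 4) * v p 2, fun p _ => ?_,
      fun p _ hp3 => ?_, fun hC => ?_⟩
    · rw [cap5_v1, h04, h24, h34, f0]
      ring
    · show (2 * ε 1 + ε 2 + 3 * ε 4) * v p 2 = 0
      rw [v_big_two hp3, mul_zero]
    · have h5 := hC 2 Nat.prime_two
      simp only [v_two_two, mul_one] at h5
      intro i
      fin_cases i <;> simp [r5] <;> linarith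

end Pool.Agent.Lib.MP_db38ce_nt
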