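import Mathlib

/-!
Private prime factors of linear forms at `(K!)^2`, and runs of consecutive integers with private
prime factors.
-/

set_option autoImplicit false

namespace Pool.Agent.Lib.MP_db38ce_nt

open Finset Nat

lemma prime_gt_of_coprime {K p m : ℕ} (hp : p.Prime) (hm : p ∣ m * K ! + 1) : K < p := by
  by_contra hle
  push Not at hle
  have h1 : p ∣ K ! := (hp.dvd_factorial).mpr hle
  have h2 : p ∣ m * K ! := dvd_mul_of_dvd_right h1 m
  have h3 : p ∣ 1 := (Nat.dvd_add_right h2).mp hm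
  exact hp.one_lt.ne' (Nat.dvd_one.mp h3)

lemma exists_private {I : Type*} [Fintype I] (A B : I → ℕ) (hA : ∀ i, 0 < A i)
    (hB : ∀ i, 0 < B i) (hdet : ∀ i j, i ≠ j → A i * B j ≠ A j * B i) :
    ∃ K0, ∀ K ≥ K0, ∀ i, ∃ p, p.Prime ∧ K < p ∧ p ∣ A i * (K !) ^ 2 + B i ∧
      ∀ j, j ≠ i → ¬ p ∣ A j * (K !) ^ 2 + B j := by
  classical
  refine ⟨∑ i, ∑ j, A i * B j + ∑ i, B i, fun K hK i => ?_⟩
  have hAB : ∀ i j, A i * B j ≤ K := by
    intro i j
    have h1 : A i * B j ≤ ∑ j, A i * B j :=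
      Finset.single_le_sum (f := fun j => A i * B j) (fun _ _ => Nat.zero_le _)
        (Finset.mem_univ j)
    have h2 : ∑ j, A i * B j ≤ ∑ i, ∑ j, A i * B j :=
      Finset.single_le_sum (f := fun i => ∑ j, A i * B j) (fun _ _ => Nat.zero_le _)
        (Finset.mem_univ i)
    omega
  have hBK : B i ≤ K := by
    have h1 : B i ≤ ∑ i, B i :=
      Finset.single_le_sum (f := fun i => B i) (fun _ _ => Nat.zero_le _) (Finset.mem_univ i)
    omega
  obtain ⟨c, hc⟩ : B i ∣ K ! := Nat.dvd_factorial (hB i) hBK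
  have hfac : A i * (K !) ^ 2 + B i = B i * ((A i * c) * K ! + 1) := by
    rw [pow_two]
    nth_rewrite 1 [hc]
    ring
  have hc0 : 0 < c := by
    rcases Nat.eq_zero_or_pos c with h | h
    · rw [h, mul_zero] at hc
      exact absurd hc (Nat.factorial_ne_zero K)
    · exact h
  set m := (A i * c) * K ! + 1 with hm
  have hm1 : m ≠ 1 := by
    have : 0 < (A i * c) * K ! := Nat.mul_pos (Nat.mul_pos (hA i) hc0) (Nat.factorial_pos K)
    omega
  have hp : (Nat.minFac m).Prime := Nat.minFac_prime hm1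
  have hpm : Nat.minFac m ∣ m := Nat.minFac_dvd m
  have hKp : K < Nat.minFac m := prime_gt_of_coprime hp hpm
  have hdvd : Nat.minFac m ∣ A i * (K !) ^ 2 + B i := by
    rw [hfac]
    exact dvd_mul_of_dvd_right hpm _
  refine ⟨Nat.minFac m, hp, hKp, hdvd, fun j hji hdvdj => ?_⟩
  set p := Nat.minFac m
  have e1 : ((p : ℕ) : ℤ) ∣ (A i : ℤ) * B j - A j * B i := by
    have h1 : ((p : ℕ) : ℤ) ∣ (A i : ℤ) * (A j * ((K ! : ℕ) : ℤ) ^ 2 + B j) := by
      refine dvd_mul_of_dvd_right ?_ _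
      exact_mod_cast hdvdj
    have h2 : ((p : ℕ) : ℤ) ∣ (A j : ℤ) * (A i * ((K ! : ℕ) : ℤ) ^ 2 + B i) := by
      refine dvd_mul_of_dvd_right ?_ _
      exact_mod_cast hdvd
    have h3 : (A i : ℤ) * B j - A j * B i = (A i : ℤ) * (A j * ((K ! : ℕ) : ℤ) ^ 2 + B j)
        - (A j : ℤ) * (A i * ((K ! : ℕ) : ℤ) ^ 2 + B i) := by ring
    rw [h3]
    exact dvd_sub h1 h2
  have hne : (A i : ℤ) * B j - A j * B i ≠ 0 := by
    intro h
    apply hdet i j (Ne.symm hji)
    have : (A i : ℤ) * B j = A j * B i := by linarith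
    exact_mod_cast this
  have habs : |(A i : ℤ) * B j - A j * B i| ≤ K := by
    have h1 : ((A i * B j : ℕ) : ℤ) ≤ K := by exact_mod_cast hAB i j
    have h2 : ((A j * B i : ℕ) : ℤ) ≤ K := by exact_mod_cast hAB j i
    push_cast at h1 h2
    have h3 : (0 : ℤ) ≤ (A i : ℤ) * B j := by positivity
    have h4 : (0 : ℤ) ≤ (A j : ℤ) * B i := by positivity
    rw [abs_le]
    constructor <;> linarith
  have hle : (p : ℤ) ≤ |(A i : ℤ) * B j - A j * B i| :=
    Int.le_of_dvd (abs_pos.mpr hne) ((dvd_abs _ _).mpr e1)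
  have : (p : ℤ) ≤ K := le_trans hle habs
  have : p ≤ K := by exact_mod_cast this
  omega

/-- Arbitrarily long runs of consecutive integers each having a large prime factor. -/
lemma exists_run (N : ℕ) : ∃ w, N < w ∧ ∀ i ≤ N, ∃ P, P.Prime ∧ N < P ∧ P ∣ w + i := by
  obtain ⟨q, hq, hqp⟩ := Nat.exists_infinite_primes (N + 1)
  have hfpos : 0 < N ! := Nat.factorial_pos N
  refine ⟨(N !) ^ 2 * q, ?_, ?_⟩
  · have h1 : 1 ≤ (N !) ^ 2 := Nat.one_le_pow _ _ hfpos
    have h2 : 1 * q ≤ (N !) ^ 2 * q := Nat.mul_le_mul_right q h1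
    omega
  · intro i hi
    rcases Nat.eq_zero_or_pos i with h0 | hpos
    · exact ⟨q, hqp, by omega, by rw [h0, add_zero]; exact dvd_mul_left q _⟩
    · obtain ⟨c, hc⟩ : i ∣ N ! := Nat.dvd_factorial hpos hi
      have hc0 : 0 < c := by
        rcases Nat.eq_zero_or_pos c with h | h
        · rw [h, mul_zero] at hc
          omega
        · exact h
      have hfac : (N !) ^ 2 * q + i = i * ((c * q) * N ! + 1) := by
        rw [pow_two]
        nth_rewrite 1 [hc]
        ring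
      set m := (c * q) * N ! + 1 with hm
      have hm1 : m ≠ 1 := by
        have : 0 < (c * q) * N ! := Nat.mul_pos (Nat.mul_pos hc0 hqp.pos) hfpos
        omega
      refine ⟨Nat.minFac m, Nat.minFac_prime hm1, ?_, ?_⟩
      · exact prime_gt_of_coprime (Nat.minFac_prime hm1) (Nat.minFac_dvd m)
      · rw [hfac]
        exact dvd_mul_of_dvd_right (Nat.minFac_dvd m) _

end Pool.Agent.Lib.MP_db38ce_nt
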