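import Pool.Agent.Lib.MP_db38ce_nt.Path
import Pool.Agent.Lib.MP_db38ce_nt.Primes

/-!
Existence of parameters with all the private primes needed.
-/

set_option autoImplicit false

namespace Pool.Agent.Lib.MP_db38ce_nt

open Finset Nat

/-- coefficients of the cap forms on the unshifted side -/
def cP : Fin 3 → ℕ := ![4, 18, 18]
/-- constant terms of the cap forms on the unshifted side -/
def bP : Fin 3 → ℕ := ![3, 13, 11]
/-- coefficients of the cap forms on the shifted side -/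
def cQ : Fin 5 → ℕ := ![2, 4, 3, 9, 36]
/-- constant terms of the cap forms on the shifted side -/
def bQ : Fin 5 → ℕ := ![1, 1, 2, 7, 23]

/-- slopes, unshifted side -/
def AP (w k : ℕ) : Fin 3 ⊕ (Fin k ⊕ Fin k) → ℕ :=
  Sum.elim (fun i => cP i * w) (Sum.elim (fun j => (w + j) * (w + j + 2)) (fun j => w + j + 2))
/-- constants, unshifted side -/
def BP (w k : ℕ) : Fin 3 ⊕ (Fin k ⊕ Fin k) → ℕ :=
  Sum.elim bP (Sum.elim (fun j => w + j + 1) (fun _ => 1))
/-- slopes, shifted side -/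
def AQ (w k : ℕ) : Fin 5 ⊕ (Fin k ⊕ Fin (k + 1)) → ℕ :=
  Sum.elim (fun i => cQ i * w)
    (Sum.elim (fun j => (w + j) * (w + j + 1) * (w + j + 2)) (fun j => w + j))
/-- constants, shifted side -/
def BQ (w k : ℕ) : Fin 5 ⊕ (Fin k ⊕ Fin (k + 1)) → ℕ :=
  Sum.elim bQ (Sum.elim (fun j => (w + j) ^ 2 + (w + j) + 1) (fun _ => 1))

lemma capX {a b W : ℕ} (h : b * (a + 2) < W) : a * (a + 2) * b < W * (a + 1) := by
  nlinarith [Nat.zero_le (b * (a + 2)), Nat.zero_le a]

lemma capC {a b W : ℕ} (h : b * (a + 2) < W) :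
    a * (a + 1) * (a + 2) * b < W * (a ^ 2 + a + 1) := by
  have h1 : a * (a + 1) * (a + 2) * b = (b * (a + 2)) * (a ^ 2 + a) := by ring
  have h2 : (b * (a + 2)) * (a ^ 2 + a) ≤ (b * (a + 2)) * (a ^ 2 + a + 1) :=
    Nat.mul_le_mul_left _ (by omega)
  have h3 : (b * (a + 2)) * (a ^ 2 + a + 1) < W * (a ^ 2 + a + 1) :=
    Nat.mul_lt_mul_of_pos_right h (by positivity)
  omega

lemma slopeXX {a b : ℕ} (h : a < b) : a * (a + 2) * (b + 1) < b * (b + 2) * (a + 1) := by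
  obtain ⟨t, rfl⟩ := Nat.exists_eq_add_of_lt h
  nlinarith [Nat.zero_le (a * t), Nat.zero_le (a * a), Nat.zero_le (t * t),
    Nat.zero_le (a * a * t), Nat.zero_le (a * t * t)]

lemma slopeXG {a b : ℕ} : a * (a + 2) * 1 ≠ (b + 2) * (a + 1) := by
  rcases Nat.lt_or_ge (b + 2) (a + 1) with h | h
  · have h1 : (b + 2) * (a + 1) ≤ a * (a + 1) := Nat.mul_le_mul_right _ (by omega)
    nlinarith
  · have h1 : (a + 1) * (a + 1) ≤ (b + 2) * (a + 1) := Nat.mul_le_mul_right _ h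
    nlinarith

lemma slopeCC {a b : ℕ} (h : a < b) :
    a * (a + 1) * (a + 2) * (b ^ 2 + b + 1) < b * (b + 1) * (b + 2) * (a ^ 2 + a + 1) := by
  obtain ⟨t, rfl⟩ := Nat.exists_eq_add_of_lt h
  have h1 : (a + t + 1) * (a + t + 1 + 1) * (a + t + 1 + 2) * (a ^ 2 + a + 1)
      = a * (a + 1) * (a + 2) * ((a + t + 1) ^ 2 + (a + t + 1) + 1)
        + (t + 1) * (a ^ 2 * (a + t + 1) ^ 2 + a * (a + t + 1) * (a + (a + t + 1)) + a ^ 2
          + 2 * a * (a + t + 1) + (a + t + 1) ^ 2 + 3 * (a + (a + t + 1)) + 2) := by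
    ring
  have h2 : 0 < (t + 1) * (a ^ 2 * (a + t + 1) ^ 2 + a * (a + t + 1) * (a + (a + t + 1)) + a ^ 2
          + 2 * a * (a + t + 1) + (a + t + 1) ^ 2 + 3 * (a + (a + t + 1)) + 2) := by positivity
  omega

lemma slopeCY {a b : ℕ} (ha : 2 ≤ a) : a * (a + 1) * (a + 2) * 1 ≠ b * (a ^ 2 + a + 1) := by
  rcases Nat.lt_or_ge b (a + 2) with h | h
  · have h1 : b * (a ^ 2 + a + 1) ≤ (a + 1) * (a ^ 2 + a + 1) :=
      Nat.mul_le_mul_right _ (by omega)
    nlinarith
  · have h1 : (a + 2) * (a ^ 2 + a + 1) ≤ b * (a ^ 2 + a + 1) := Nat.mul_le_mul_right _ h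
    nlinarith

lemma det_P {w k : ℕ} (hw : 100 * (k + 3) ≤ w) (i j : Fin 3 ⊕ (Fin k ⊕ Fin k)) (hij : i ≠ j) :
    AP w k i * BP w k j ≠ AP w k j * BP w k i := by
  have hcap : ∀ i : Fin 3, ∀ j ≤ k, bP i * (w + j + 2) < cP i * w := by
    intro i j hj
    fin_cases i <;> simp [bP, cP] <;> omega
  rcases i with (i | (i | i)) <;> rcases j with (j | (j | j)) <;>
    simp only [AP, BP, Sum.elim_inl, Sum.elim_inr]
  · have hw0 : 0 < w := by omega
    have : i ≠ j := fun h => hij (by rw [h])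
    fin_cases i <;> fin_cases j <;> simp [bP, cP] at this ⊢ <;> omega
  · have h1 := capX (hcap i j (by have := j.2; omega))
    intro h
    rw [h] at h1
    exact lt_irrefl _ h1
  · have h1 := hcap i j (by have := j.2; omega)
    intro h
    rw [mul_one] at h
    rw [h, mul_comm] at h1
    exact lt_irrefl _ h1
  · have h1 := capX (hcap j i (by have := i.2; omega))
    intro h
    rw [h] at h1
    exact lt_irrefl _ h1
  · have hne : (i : ℕ) ≠ j := fun h => hij (by rw [Fin.ext h])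
    rcases Nat.lt_or_gt_of_ne hne with h | h
    · exact (slopeXX (by omega : w + (i : ℕ) < w + j)).ne
    · exact (slopeXX (by omega : w + (j : ℕ) < w + i)).ne'
  · exact slopeXG
  · have h1 := hcap j i (by have := i.2; omega)
    intro h
    rw [mul_one] at h
    rw [← h, mul_comm] at h1
    exact lt_irrefl _ h1
  · exact slopeXG.symm
  · have hne : (i : ℕ) ≠ j := fun h => hij (by rw [Fin.ext h])
    omega

lemma det_Q {w k : ℕ} (hw : 100 * (k + 3) ≤ w) (i j : Fin 5 ⊕ (Fin k ⊕ Fin (k + 1)))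
    (hij : i ≠ j) : AQ w k i * BQ w k j ≠ AQ w k j * BQ w k i := by
  have hcap : ∀ i : Fin 5, ∀ j ≤ k, bQ i * (w + j + 2) < cQ i * w := by
    intro i j hj
    fin_cases i <;> simp [bQ, cQ] <;> omega
  have hcap' : ∀ i : Fin 5, ∀ j ≤ k, bQ i * (w + j) < cQ i * w := by
    intro i j hj
    exact lt_of_le_of_lt (Nat.mul_le_mul_left _ (by omega)) (hcap i j hj)
  rcases i with (i | (i | i)) <;> rcases j with (j | (j | j)) <;>
    simp only [AQ, BQ, Sum.elim_inl, Sum.elim_inr]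
  · have hw0 : 0 < w := by omega
    have : i ≠ j := fun h => hij (by rw [h])
    fin_cases i <;> fin_cases j <;> simp [bQ, cQ] at this ⊢ <;> omega
  · have h1 := capC (hcap i j (by have := j.2; omega))
    intro h
    rw [h] at h1
    exact lt_irrefl _ h1
  · have h1 := hcap' i j (by have := j.2; omega)
    intro h
    rw [mul_one] at h
    rw [h, mul_comm] at h1
    exact lt_irrefl _ h1
  · have h1 := capC (hcap j i (by have := i.2; omega))
    intro h
    rw [h] at h1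
    exact lt_irrefl _ h1
  · have hne : (i : ℕ) ≠ j := fun h => hij (by rw [Fin.ext h])
    rcases Nat.lt_or_gt_of_ne hne with h | h
    · exact (slopeCC (by omega : w + (i : ℕ) < w + j)).ne
    · exact (slopeCC (by omega : w + (j : ℕ) < w + i)).ne'
  · exact slopeCY (by omega)
  · have h1 := hcap' j i (by have := i.2; omega)
    intro h
    rw [mul_one] at h
    rw [← h, mul_comm] at h1
    exact lt_irrefl _ h1
  · exact (slopeCY (by omega)).symm
  · have hne : (i : ℕ) ≠ j := fun h => hij (by rw [Fin.ext h])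
    omega

/-- The private primes of the cap forms, unshifted side. -/
def CapP (w d k K : ℕ) : Prop :=
  ∀ i : Fin 3, ∃ p, p.Prime ∧ K < p ∧ p ∣ cP i * w * d + bP i ∧
    (∀ j, j ≠ i → ¬ p ∣ cP j * w * d + bP j) ∧
    (∀ j < k, ¬ p ∣ X d (w + j)) ∧ (∀ j < k, ¬ p ∣ G d (w + j))

/-- The private primes of the cap forms, shifted side. -/
def CapQ (w d k K : ℕ) : Prop :=
  ∀ i : Fin 5, ∃ p, p.Prime ∧ K < p ∧ p ∣ cQ i * w * d + bQ i ∧
    (∀ j, j ≠ i → ¬ p ∣ cQ j * w * d + bQ j) ∧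
    (∀ j < k, ¬ p ∣ C d (w + j)) ∧ (∀ j ≤ k, ¬ p ∣ Y1 d (w + j))

lemma exists_params (k B : ℕ) : ∃ w d K, B < w ∧ Params w d k K ∧ 2 ∣ d ∧ CapP w d k K ∧
    CapQ w d k K := by
  obtain ⟨w, hNw, hrun⟩ := exists_run (B + 100 * (k + 3))
  have hw : 100 * (k + 3) ≤ w := by omega
  obtain ⟨K1, hK1⟩ := exists_private (AP w k) (BP w k)
    (by rintro (i | (i | i))
        · fin_cases i <;> simp [AP, cP] <;> omega
        · simp [AP]; omega
        · simp [AP])
    (by rintro (i | (i | i))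
        · fin_cases i <;> simp [BP, bP]
        · simp [BP]
        · simp [BP])
    (det_P hw)
  obtain ⟨K2, hK2⟩ := exists_private (AQ w k) (BQ w k)
    (by rintro (i | (i | i))
        · fin_cases i <;> simp [AQ, cQ] <;> omega
        · simp [AQ]; omega
        · simp [AQ]; omega)
    (by rintro (i | (i | i))
        · fin_cases i <;> simp [BQ, bQ]
        · simp [BQ]
        · simp [BQ])
    (det_Q hw)
  obtain ⟨p0, hp0, hp0p⟩ := Nat.exists_infinite_primes (w + k + 4)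
  set K := K1 + K2 + p0 with hK
  have hdsmall : ∀ p, p.Prime → p ≤ K → p ∣ (K !) ^ 2 := fun p hp hpK =>
    dvd_pow ((hp.dvd_factorial).mpr hpK) (by norm_num)
  have h2d : 2 ∣ (K !) ^ 2 := hdsmall 2 Nat.prime_two (by omega)
  have hdpos : 0 < (K !) ^ 2 := by positivity
  have hK1' := hK1 K (by omega)
  have hK2' := hK2 K (by omega)
  refine ⟨w, (K !) ^ 2, K, by omega, ?_, h2d, ?_, ?_⟩
  · refine ⟨by omega, Nat.le_of_dvd hdpos h2d, by omega, ?_, hdsmall, ?_, ?_, ?_, ?_, ?_, ?_⟩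
    · intro p hp hKp hdvd
      have h1 : p ∣ K ! := hp.dvd_of_dvd_pow hdvd
      have h2 : p ≤ K := (hp.dvd_factorial).mp h1
      omega
    · intro i hi
      obtain ⟨P, hP, hNP, hPw⟩ := hrun i (by omega)
      refine ⟨P, hP, by omega, hPw, fun j hj hji hdvd => ?_⟩
      rcases Nat.lt_or_gt_of_ne hji with h | h
      · have h1 : P ∣ (w + i) - (w + j) := Nat.dvd_sub hPw hdvd
        have h2 := Nat.le_of_dvd (by omega) h1
        omega
      · have h1 : P ∣ (w + j) - (w + i) := Nat.dvd_sub hdvd hPw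
        have h2 := Nat.le_of_dvd (by omega) h1
        omega
    · refine ⟨p0, hp0p, by omega, hdsmall p0 hp0p (by omega), fun i hi hdvd => ?_⟩
      have := Nat.le_of_dvd (by omega) hdvd
      omega
    · intro j hj
      obtain ⟨p, hp, hKp, hpd, hpo⟩ := hK1' (Sum.inr (Sum.inl ⟨j, hj⟩))
      refine ⟨p, hp, hKp, hpd, fun i hi hij => hpo (Sum.inr (Sum.inl ⟨i, hi⟩)) ?_,
        fun i hi => hpo (Sum.inr (Sum.inr ⟨i, hi⟩)) ?_⟩
      · simpa using hij
      · simp
    · intro j hj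
      obtain ⟨p, hp, hKp, hpd, hpo⟩ := hK1' (Sum.inr (Sum.inr ⟨j, hj⟩))
      refine ⟨p, hp, hKp, hpd, fun i hi hij => hpo (Sum.inr (Sum.inr ⟨i, hi⟩)) ?_,
        fun i hi => hpo (Sum.inr (Sum.inl ⟨i, hi⟩)) ?_⟩
      · simpa using hij
      · simp
    · intro j hj
      obtain ⟨p, hp, hKp, hpd, hpo⟩ := hK2' (Sum.inr (Sum.inl ⟨j, hj⟩))
      refine ⟨p, hp, hKp, hpd, fun i hi hij => hpo (Sum.inr (Sum.inl ⟨i, hi⟩)) ?_,
        fun i hi => hpo (Sum.inr (Sum.inr ⟨i, by omega⟩)) ?_⟩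
      · simpa using hij
      · simp
    · intro j hj
      obtain ⟨p, hp, hKp, hpd, hpo⟩ := hK2' (Sum.inr (Sum.inr ⟨j, by omega⟩))
      refine ⟨p, hp, hKp, hpd, fun i hi hij => hpo (Sum.inr (Sum.inr ⟨i, by omega⟩)) ?_⟩
      simpa using hij
  · intro i
    obtain ⟨p, hp, hKp, hpd, hpo⟩ := hK1' (Sum.inl i)
    refine ⟨p, hp, hKp, hpd, fun j hj => hpo (Sum.inl j) (by simpa using hj),
      fun j hj => hpo (Sum.inr (Sum.inl ⟨j, hj⟩)) (by simp),
      fun j hj => hpo (Sum.inr (Sum.inr ⟨j, hj⟩)) (by simp)⟩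
  · intro i
    obtain ⟨p, hp, hKp, hpd, hpo⟩ := hK2' (Sum.inl i)
    refine ⟨p, hp, hKp, hpd, fun j hj => hpo (Sum.inl j) (by simpa using hj),
      fun j hj => hpo (Sum.inr (Sum.inl ⟨j, hj⟩)) (by simp),
      fun j hj => hpo (Sum.inr (Sum.inr ⟨j, by omega⟩)) (by simp)⟩

end Pool.Agent.Lib.MP_db38ce_nt
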