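import Pool.Agent.Lib.MP_db38ce_nt.Basic

/-!
The path gadget: a chain of integers from `d w` to `d (w + k)` realising the quotient of the two
ends multiplicatively, simultaneously with the shifted chain.
-/

set_option autoImplicit false

namespace Pool.Agent.Lib.MP_db38ce_nt

open Finset

/-- `X = d a (a+2) + (a+1)`. -/
def X (d a : ℕ) : ℕ := a * (a + 2) * d + (a + 1)

/-- `G = d (a+2) + 1`. -/
def G (d a : ℕ) : ℕ := (a + 2) * d + 1

/-- `C = d a (a+1) (a+2) + (a^2 + a + 1)`. -/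
def C (d a : ℕ) : ℕ := a * (a + 1) * (a + 2) * d + (a ^ 2 + a + 1)

/-- The second member of a step. -/
def cc (d a : ℕ) : ℕ := a * (a + 1) * G d a

/-- The third member of a step. -/
def zz (d a : ℕ) : ℕ := (a + 1) ^ 2 * (G d a * X d a)

/-- The shifted node `Y + 1 = d a + 1`. -/
def Y1 (d a : ℕ) : ℕ := a * d + 1

lemma X_succ (d a : ℕ) : X d a + 1 = (a + 2) * Y1 d a := by unfold X Y1; ring
lemma cc_succ (d a : ℕ) : cc d a + 1 = C d a := by unfold cc C G; ring
lemma zz_succ (d a : ℕ) : zz d a + 1 = Y1 d (a + 1) * ((a + 2) * C d a) := by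
  unfold zz C G X Y1; ring

lemma X_pos (d a : ℕ) : 0 < X d a := by unfold X; omega
lemma G_pos (d a : ℕ) : 0 < G d a := by unfold G; omega
lemma C_pos (d a : ℕ) : 0 < C d a := by unfold C; positivity
lemma Y1_pos (d a : ℕ) : 0 < Y1 d a := by unfold Y1; omega

lemma v_cc {p d a : ℕ} (ha : 0 < a) : v p (cc d a) = v p a + v p (a + 1) + v p (G d a) := by
  have h1 := G_pos d a
  unfold cc
  rw [v_mul (by positivity) (by positivity), v_mul (by positivity) (by positivity)]

lemma v_zz {p d a : ℕ} : v p (zz d a) = 2 * v p (a + 1) + v p (G d a) + v p (X d a) := by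
  have h1 := G_pos d a
  have h2 := X_pos d a
  unfold zz
  rw [v_mul (by positivity) (by positivity), v_mul (by positivity) (by positivity), v_pow]
  push_cast
  ring

lemma v_X1 {p d a : ℕ} : v p (X d a + 1) = v p (a + 2) + v p (Y1 d a) := by
  have h1 := Y1_pos d a
  rw [X_succ, v_mul (by positivity) (by positivity)]

lemma v_cc1 {p d a : ℕ} : v p (cc d a + 1) = v p (C d a) := by
  rw [cc_succ]

lemma v_zz1 {p d a : ℕ} :
    v p (zz d a + 1) = v p (Y1 d (a + 1)) + v p (a + 2) + v p (C d a) := by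
  have h1 := Y1_pos d (a + 1)
  have h2 := C_pos d a
  rw [zz_succ, v_mul (by positivity) (by positivity), v_mul (by positivity) (by positivity)]
  ring

lemma tele_sum {k : ℕ} (V : ℕ → ℤ) : ∑ j : Fin k, (V (j + 1) - V j) = V k - V 0 := by
  rw [Fin.sum_univ_eq_sum_range (fun j => V (j + 1) - V j) k, Finset.sum_range_sub]

/-- Telescoping elimination. -/
lemma tele {k : ℕ} (η : Fin k → ℤ) (V : ℕ → ℕ → ℤ)
    (hQ : ∀ i < k, ∃ Q, V Q i ≠ 0 ∧ (∀ j ≤ k, j ≠ i → V Q j = 0) ∧
      ∑ j : Fin k, η j * (V Q (j + 1) - V Q j) = 0) : ∀ j, η j = 0 := by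
  have key : ∀ i, ∀ hi : i < k, η ⟨i, hi⟩ = 0 := by
    intro i
    induction i using Nat.strong_induction_on with
    | _ i ih =>
      intro hi
      obtain ⟨Q, h1, h2, h3⟩ := hQ i hi
      rw [Finset.sum_eq_single (⟨i, hi⟩ : Fin k)] at h3
      · have h4 : V Q (i + 1) = 0 := h2 (i + 1) (by omega) (by omega)
        simp only [h4, zero_sub, mul_neg, neg_eq_zero, mul_eq_zero] at h3
        rcases h3 with h | h
        · exact h
        · exact absurd h h1
      · intro j _ hj
        have hji : (j : ℕ) ≠ i := fun h => hj (Fin.ext h)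
        by_cases hj2 : (j : ℕ) + 1 = i
        · have := ih j (by omega) j.2
          rw [Fin.eta] at this
          rw [this, zero_mul]
        · rw [h2 (j + 1) (by have := j.2; omega) hj2, h2 j (by have := j.2; omega) hji]
          ring
      · intro h
        exact absurd (Finset.mem_univ _) h
  intro j
  exact key j j.2

/-- Hypotheses on the parameters of the path. -/
structure Params (w d k K : ℕ) : Prop where
  w_pos : 2 ≤ w
  d_pos : 2 ≤ d
  K_big : w + k + 3 ≤ K
  d_big : ∀ p, p.Prime → K < p → ¬ p ∣ d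
  d_small : ∀ p, p.Prime → p ≤ K → p ∣ d
  run : ∀ i ≤ k + 1, ∃ P, P.Prime ∧ 3 < P ∧ P ∣ w + i ∧ ∀ j ≤ k + 1, j ≠ i → ¬ P ∣ w + j
  p0 : ∃ p, p.Prime ∧ 3 < p ∧ p ∣ d ∧ ∀ i ≤ k + 1, ¬ p ∣ w + i
  pX : ∀ j < k, ∃ p, p.Prime ∧ K < p ∧ p ∣ X d (w + j) ∧
    (∀ i < k, i ≠ j → ¬ p ∣ X d (w + i)) ∧ (∀ i < k, ¬ p ∣ G d (w + i))
  pG : ∀ j < k, ∃ p, p.Prime ∧ K < p ∧ p ∣ G d (w + j) ∧
    (∀ i < k, i ≠ j → ¬ p ∣ G d (w + i)) ∧ (∀ i < k, ¬ p ∣ X d (w + i))
  pC : ∀ j < k, ∃ p, p.Prime ∧ K < p ∧ p ∣ C d (w + j) ∧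
    (∀ i < k, i ≠ j → ¬ p ∣ C d (w + i)) ∧ (∀ i ≤ k, ¬ p ∣ Y1 d (w + i))
  pY : ∀ j ≤ k, ∃ p, p.Prime ∧ K < p ∧ p ∣ Y1 d (w + j) ∧
    (∀ i ≤ k, i ≠ j → ¬ p ∣ Y1 d (w + i))

lemma Params.v_w {w d k K p : ℕ} (h : Params w d k K) (hp : K < p) {i : ℕ}
    (hi : i ≤ k + 2) : v p (w + i) = 0 := by
  have h1 := h.K_big
  have h2 := h.w_pos
  refine v_eq_zero fun hd => ?_
  have := Nat.le_of_dvd (by omega) hd
  omega

lemma pathP {w d k K : ℕ} (h : Params w d k K) {τ β : ℤ} {ξ γ ζ : Fin k → ℤ} {Cst : ℕ → ℤ}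
    (hC : ∀ p, p.Prime → 3 < p → Cst p = 0)
    (hrel : ∀ p, p.Prime → (τ * v p (d * w) + Cst p)
      + ∑ j : Fin k, (ξ j * v p (X d (w + j)) + γ j * v p (cc d (w + j))
          + ζ j * v p (zz d (w + j))) + β * v p (d * (w + k)) = 0) :
    (∀ j, ξ j = -τ ∧ γ j = -τ ∧ ζ j = τ) ∧ β = -τ ∧ ∀ p, p.Prime → Cst p = 0 := by
  have hw := h.w_pos
  have hd := h.d_pos
  have hK := h.K_big
  have H : ∀ p, p.Prime → (τ * (v p d + v p w) + Cst p)
      + ∑ j : Fin k, ((ξ j + ζ j) * v p (X d (w + j)) + (γ j + ζ j) * v p (G d (w + j))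
          + γ j * v p (w + j) + (γ j + 2 * ζ j) * v p (w + j + 1))
      + β * (v p d + v p (w + k)) = 0 := by
    intro p hp
    have := hrel p hp
    rw [v_mul (by omega) (by omega), v_mul (by omega) (by omega)] at this
    rw [← this]
    congr 2
    refine Finset.sum_congr rfl fun j _ => ?_
    rw [v_cc (by omega), v_zz]
    ring
  -- the private primes of `X`
  have hξ : ∀ j, ξ j = - ζ j := by
    intro j
    obtain ⟨p, hp, hKp, hpX, hX, hG⟩ := h.pX j j.2
    have h1 := H p hp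
    rw [hC p hp (by omega), v_eq_zero (h.d_big p hp hKp)] at h1
    have hw0 : v p w = 0 := h.v_w hKp (i := 0) (by omega)
    rw [hw0, h.v_w hKp (by omega : k ≤ k + 2)] at h1
    rw [Finset.sum_eq_single j] at h1
    · rw [v_eq_zero (hG j j.2), h.v_w hKp (by omega : (j : ℕ) ≤ k + 2),
        add_assoc w, h.v_w hKp (by omega : (j : ℕ) + 1 ≤ k + 2)] at h1
      have h2 := v_pos hp (X_pos d (w + j)).ne' hpX
      have h3 : (ξ j + ζ j) * v p (X d (w + j)) = 0 := by linarith
      rcases mul_eq_zero.mp h3 with h4 | h4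
      · linarith
      · omega
    · intro i _ hij
      have hij' : (i : ℕ) ≠ j := fun h => hij (Fin.ext h)
      rw [v_eq_zero (hX i i.2 hij'), v_eq_zero (hG i i.2),
        h.v_w hKp (by omega : (i : ℕ) ≤ k + 2),
        add_assoc w, h.v_w hKp (by omega : (i : ℕ) + 1 ≤ k + 2)]
      ring
    · intro h
      exact absurd (Finset.mem_univ _) h
  have hγ : ∀ j, γ j = - ζ j := by
    intro j
    obtain ⟨p, hp, hKp, hpX, hX, hG⟩ := h.pG j j.2
    have h1 := H p hp
    rw [hC p hp (by omega), v_eq_zero (h.d_big p hp hKp)] at h1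
    have hw0 : v p w = 0 := h.v_w hKp (i := 0) (by omega)
    rw [hw0, h.v_w hKp (by omega : k ≤ k + 2)] at h1
    rw [Finset.sum_eq_single j] at h1
    · rw [v_eq_zero (hG j j.2), h.v_w hKp (by omega : (j : ℕ) ≤ k + 2),
        add_assoc w, h.v_w hKp (by omega : (j : ℕ) + 1 ≤ k + 2)] at h1
      have h2 := v_pos hp (G_pos d (w + j)).ne' hpX
      have h3 : (γ j + ζ j) * v p (G d (w + j)) = 0 := by linarith
      rcases mul_eq_zero.mp h3 with h4 | h4
      · linarith
      · omega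
    · intro i _ hij
      have hij' : (i : ℕ) ≠ j := fun h => hij (Fin.ext h)
      rw [v_eq_zero (hX i i.2 hij'), v_eq_zero (hG i i.2),
        h.v_w hKp (by omega : (i : ℕ) ≤ k + 2),
        add_assoc w, h.v_w hKp (by omega : (i : ℕ) + 1 ≤ k + 2)]
      ring
    · intro h
      exact absurd (Finset.mem_univ _) h
  have H2 : ∀ p, p.Prime → (τ + β) * (v p d + v p (w + k)) + Cst p
      + ∑ j : Fin k, (ζ j - τ) * (v p (w + (j + 1)) - v p (w + j)) = 0 := by
    intro p hp
    have h1 := H p hp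
    have h2 : ∑ j : Fin k, ((ξ j + ζ j) * v p (X d (w + j)) + (γ j + ζ j) * v p (G d (w + j))
          + γ j * v p (w + j) + (γ j + 2 * ζ j) * v p (w + j + 1))
        = ∑ j : Fin k, (ζ j - τ) * (v p (w + (j + 1)) - v p (w + j))
          + τ * ∑ j : Fin k, (v p (w + (j + 1)) - v p (w + j)) := by
      rw [Finset.mul_sum, ← Finset.sum_add_distrib]
      refine Finset.sum_congr rfl fun j _ => ?_
      rw [hξ j, hγ j, add_assoc w]
      ring
    rw [tele_sum (fun j => v p (w + j))] at h2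
    rw [h2] at h1
    simp only [add_zero] at h1
    linarith
  have hβ : β = -τ := by
    obtain ⟨p, hp, h3, hpd, hpw⟩ := h.p0
    have h1 := H2 p hp
    rw [hC p hp h3, v_eq_zero (hpw k (by omega))] at h1
    rw [Finset.sum_eq_zero] at h1
    · have h2 := v_pos hp (by omega) hpd
      have h4 : (τ + β) * v p d = 0 := by linarith
      rcases mul_eq_zero.mp h4 with h5 | h5
      · linarith
      · omega
    · intro j _
      rw [v_eq_zero (hpw (j + 1) (by have := j.2; omega)),
        v_eq_zero (hpw j (by have := j.2; omega))]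
      ring
  have hη : ∀ j, ζ j - τ = 0 := by
    refine tele (fun j => ζ j - τ) (fun p j => v p (w + j)) fun i hi => ?_
    obtain ⟨P, hP, h3, hPi, hPj⟩ := h.run i (by omega)
    refine ⟨P, (v_pos hP (by omega) hPi).ne', fun j hj hji => v_eq_zero (hPj j (by omega) hji), ?_⟩
    have h1 := H2 P hP
    rw [hC P hP h3, hβ] at h1
    simpa using h1
  refine ⟨fun j => ?_, hβ, fun p hp => ?_⟩
  · have h1 := hη j
    have h2 := hξ j
    have h3 := hγ j
    refine ⟨by linarith, by linarith, by linarith⟩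
  · have h1 := H2 p hp
    rw [hβ, Finset.sum_eq_zero] at h1
    · linarith
    · intro j _
      rw [hη j, zero_mul]

lemma pathQ {w d k K : ℕ} (h : Params w d k K) {τ β : ℤ} {ξ γ ζ : Fin k → ℤ} {Cst : ℕ → ℤ}
    (hC : ∀ p, p.Prime → 3 < p → Cst p = 0)
    (hrel : ∀ p, p.Prime → (τ * v p (Y1 d w) + Cst p)
      + ∑ j : Fin k, (ξ j * v p (X d (w + j) + 1) + γ j * v p (cc d (w + j) + 1)
          + ζ j * v p (zz d (w + j) + 1)) + β * v p (Y1 d (w + k)) = 0) :
    (∀ j, ξ j = -τ ∧ γ j = -τ ∧ ζ j = τ) ∧ β = -τ ∧ ∀ p, p.Prime → Cst p = 0 := by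
  have hw := h.w_pos
  have hd := h.d_pos
  have hK := h.K_big
  have H : ∀ p, p.Prime → (τ * v p (Y1 d w) + Cst p)
      + ∑ j : Fin k, ((γ j + ζ j) * v p (C d (w + j)) + (ξ j + ζ j) * v p (w + j + 2)
          + ξ j * v p (Y1 d (w + j)) + ζ j * v p (Y1 d (w + j + 1)))
      + β * v p (Y1 d (w + k)) = 0 := by
    intro p hp
    have := hrel p hp
    rw [← this]
    congr 2
    refine Finset.sum_congr rfl fun j _ => ?_
    rw [v_X1, v_cc1, v_zz1]
    ring
  -- the private primes of `C`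
  have hγ : ∀ j, γ j = - ζ j := by
    intro j
    obtain ⟨p, hp, hKp, hpC, hCi, hY⟩ := h.pC j j.2
    have h1 := H p hp
    have hY0 : v p (Y1 d w) = 0 := v_eq_zero (hY 0 (by omega))
    rw [hC p hp (by omega), hY0, v_eq_zero (hY k (by omega))] at h1
    rw [Finset.sum_eq_single j] at h1
    · rw [v_eq_zero (hY j (by omega)), add_assoc w,
        h.v_w hKp (by omega : (j : ℕ) + 2 ≤ k + 2), add_assoc w,
        v_eq_zero (hY (j + 1) (by omega))] at h1
      have h2 := v_pos hp (C_pos d (w + j)).ne' hpC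
      have h3 : (γ j + ζ j) * v p (C d (w + j)) = 0 := by linarith
      rcases mul_eq_zero.mp h3 with h4 | h4
      · linarith
      · omega
    · intro i _ hij
      have hij' : (i : ℕ) ≠ j := fun h => hij (Fin.ext h)
      rw [v_eq_zero (hCi i i.2 hij'), v_eq_zero (hY i (by omega)), add_assoc w,
        h.v_w hKp (by omega : (i : ℕ) + 2 ≤ k + 2), add_assoc w,
        v_eq_zero (hY (i + 1) (by omega))]
      ring
    · intro h
      exact absurd (Finset.mem_univ _) h
  -- the private primes of the run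
  have hξ : ∀ j, ξ j = - ζ j := by
    intro j
    have hj := j.2
    by_cases hjk : (j : ℕ) + 2 ≤ k + 1
    · obtain ⟨p, hp, h3, hpw, hpj⟩ := h.run (j + 2) hjk
      have hpK : p ≤ K := by
        have := Nat.le_of_dvd (by omega) hpw
        omega
      have hpd : p ∣ d := h.d_small p hp hpK
      have hY : ∀ a, v p (Y1 d a) = 0 := by
        intro a
        refine v_eq_zero fun hdvd => ?_
        unfold Y1 at hdvd
        have h2 : p ∣ a * d := dvd_mul_of_dvd_right hpd a
        have h3 : p ∣ 1 := (Nat.dvd_add_right h2).mp hdvd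
        exact hp.one_lt.ne' (Nat.dvd_one.mp h3)
      have h1 := H p hp
      rw [hC p hp h3, hY, hY] at h1
      rw [Finset.sum_eq_single j] at h1
      · rw [hY, hY, hγ j] at h1
        have h2 : 0 < v p (w + j + 2) := v_pos hp (by omega) (by rw [add_assoc]; exact hpw)
        have h3 : (ξ j + ζ j) * v p (w + j + 2) = 0 := by linarith
        rcases mul_eq_zero.mp h3 with h4 | h4
        · linarith
        · omega
      · intro i _ hij
        have hij' : (i : ℕ) + 2 ≠ j + 2 := fun h => hij (Fin.ext (by omega))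
        have h5 : v p (w + i + 2) = 0 := by
          rw [add_assoc]
          exact v_eq_zero (hpj (i + 2) (by have := i.2; omega) hij')
        rw [hY, hY, hγ i, h5]
        ring
      · intro h
        exact absurd (Finset.mem_univ _) h
    · omega
  have H2 : ∀ p, p.Prime → (τ + β) * v p (Y1 d (w + k)) + Cst p
      + ∑ j : Fin k, (ζ j - τ) * (v p (Y1 d (w + (j + 1))) - v p (Y1 d (w + j))) = 0 := by
    intro p hp
    have h1 := H p hp
    have h2 : ∑ j : Fin k, ((γ j + ζ j) * v p (C d (w + j)) + (ξ j + ζ j) * v p (w + j + 2)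
          + ξ j * v p (Y1 d (w + j)) + ζ j * v p (Y1 d (w + j + 1)))
        = ∑ j : Fin k, (ζ j - τ) * (v p (Y1 d (w + (j + 1))) - v p (Y1 d (w + j)))
          + τ * ∑ j : Fin k, (v p (Y1 d (w + (j + 1))) - v p (Y1 d (w + j))) := by
      rw [Finset.mul_sum, ← Finset.sum_add_distrib]
      refine Finset.sum_congr rfl fun j _ => ?_
      rw [hξ j, hγ j, add_assoc w j 1]
      ring
    rw [tele_sum (fun j => v p (Y1 d (w + j)))] at h2
    rw [h2] at h1
    simp only [add_zero] at h1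
    linarith
  have hη : ∀ j, ζ j - τ = 0 := by
    refine tele (fun j => ζ j - τ) (fun p j => v p (Y1 d (w + j))) fun i hi => ?_
    obtain ⟨P, hP, hKP, hPi, hPj⟩ := h.pY i (by omega)
    refine ⟨P, (v_pos hP (Y1_pos _ _).ne' hPi).ne',
      fun j hj hji => v_eq_zero (hPj j (by omega) hji), ?_⟩
    have h1 := H2 P hP
    rw [hC P hP (by omega), v_eq_zero (hPj k le_rfl (by omega))] at h1
    simpa using h1
  have hβ : β = -τ := by
    obtain ⟨P, hP, hKP, hPi, hPj⟩ := h.pY k le_rfl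
    have h1 := H2 P hP
    rw [hC P hP (by omega), Finset.sum_eq_zero] at h1
    · have h2 := v_pos hP (Y1_pos d (w + k)).ne' hPi
      have h4 : (τ + β) * v P (Y1 d (w + k)) = 0 := by linarith
      rcases mul_eq_zero.mp h4 with h5 | h5
      · linarith
      · omega
    · intro j _
      rw [hη j, zero_mul]
  refine ⟨fun j => ?_, hβ, fun p hp => ?_⟩
  · have h1 := hη j
    have h2 := hξ j
    have h3 := hγ j
    refine ⟨by linarith, by linarith, by linarith⟩
  · have h1 := H2 p hp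
    rw [hβ, Finset.sum_eq_zero] at h1
    · linarith
    · intro j _
      rw [hη j, zero_mul]

end Pool.Agent.Lib.MP_db38ce_nt
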